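import Mathlib

/-!
# Ruziewicz's question on prescribed moduli of continuity

For all `w, φ` as in the problem there is a function `f` with `|f (x + h) - f x| < w h` for all `x`
and all `0 < |h| < δ`, and with infinite upper limit of `|f (x + h) - f x| / φ h` at every `x`.
-/

set_option autoImplicit false

open Filter Topology

namespace Pool.Agent.Results.MP_a2bddf_an.Ruziewicz

noncomputable section

/-- The distance to the nearest integer. -/
def S (t : ℝ) : ℝ := |t - round t|

lemma S_nonneg (t : ℝ) : 0 ≤ S t := abs_nonneg _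

lemma S_le_half (t : ℝ) : S t ≤ 1 / 2 := abs_sub_round t

lemma S_le (t : ℝ) (z : ℤ) : S t ≤ |t - z| := round_le t z

lemma S_sub_le (t s : ℝ) : S t - S s ≤ |t - s| := by
  have h1 := S_le t (round s)
  have h2 : |t - (round s : ℤ)| ≤ |t - s| + |s - (round s : ℤ)| := abs_sub_le _ _ _
  unfold S at *
  linarith

lemma abs_S_sub_le (t s : ℝ) : |S t - S s| ≤ |t - s| := by
  rw [abs_le]
  constructor
  · have := S_sub_le s t
    rw [abs_sub_comm] at this
    linarith
  · exact S_sub_le t s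

lemma abs_S_sub_le_one (t s : ℝ) : |S t - S s| ≤ 1 := by
  rw [abs_le]
  constructor <;> linarith [S_nonneg t, S_nonneg s, S_le_half t, S_le_half s]

lemma S_eq {t : ℝ} {z : ℤ} (h : |t - z| ≤ 1 / 2) : S t = |t - z| := by
  apply le_antisymm (S_le t z)
  by_cases hz : z = round t
  · rw [hz]; exact le_rfl
  have h1 : (1:ℝ) ≤ |(z:ℝ) - (round t : ℤ)| := by
    have : z - round t ≠ 0 := sub_ne_zero.mpr hz
    have h2 := Int.one_le_abs this
    have h3 : ((1:ℤ):ℝ) ≤ ((|z - round t| : ℤ) : ℝ) := by exact_mod_cast h2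
    simpa using h3
  have h2 : |(z:ℝ) - (round t : ℤ)| ≤ |(z:ℝ) - t| + |t - (round t : ℤ)| := abs_sub_le _ _ _
  rw [abs_sub_comm (z:ℝ) t] at h2
  unfold S
  linarith

lemma S_add {n : ℤ} {s : ℝ} (z : ℤ) (h : |s - z| ≤ 1 / 2) : S (n + s) = |s - z| := by
  have e : (n:ℝ) + s - ((n + z : ℤ) : ℝ) = s - z := by push_cast; ring
  have h1 : |(n:ℝ) + s - ((n + z : ℤ) : ℝ)| ≤ 1 / 2 := by rw [e]; exact h
  rw [S_eq h1, e]

lemma S_shift (t : ℝ) : 1 / 8 ≤ |S (t + 1 / 2) - S t| ∨ 1 / 8 ≤ |S (t + 1 / 4) - S t| := by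
  obtain ⟨n, s, hs0, hs1, rfl⟩ : ∃ (n : ℤ) (s : ℝ), 0 ≤ s ∧ s < 1 ∧ t = n + s :=
    ⟨⌊t⌋, Int.fract t, Int.fract_nonneg t, Int.fract_lt_one t, (Int.floor_add_fract t).symm⟩
  rw [add_assoc, add_assoc]
  have a0 : ∀ u : ℝ, 0 ≤ u → u ≤ 1/2 → S (n + u) = u := by
    intro u h1 h2
    rw [S_add 0 (by rw [abs_le]; norm_num; constructor <;> linarith)]
    norm_num; exact h1
  have a1 : ∀ u : ℝ, 1/2 ≤ u → u ≤ 1 → S (n + u) = 1 - u := by
    intro u h1 h2
    rw [S_add 1 (by rw [abs_le]; norm_num; constructor <;> linarith)]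
    rw [abs_of_nonpos (by norm_num; exact h2)]
    norm_num
  have a2 : ∀ u : ℝ, 1 ≤ u → u ≤ 3/2 → S (n + u) = u - 1 := by
    intro u h1 h2
    rw [S_add 1 (by rw [abs_le]; norm_num; constructor <;> linarith)]
    rw [abs_of_nonneg (by norm_num; exact h1)]
    norm_num
  by_cases h1 : s ≤ 5 / 16
  · right
    rw [a0 s hs0 (by linarith)]
    by_cases h2 : s ≤ 1 / 4
    · rw [a0 (s + 1/4) (by linarith) (by linarith), le_abs]
      left; linarith
    · push Not at h2
      rw [a1 (s + 1/4) (by linarith) (by linarith), le_abs]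
      left; linarith
  push Not at h1
  by_cases h2 : s ≤ 11 / 16
  · left
    by_cases h3 : s ≤ 1 / 2
    · rw [a0 s hs0 h3, a1 (s + 1/2) (by linarith) (by linarith), le_abs]
      right; linarith
    · push Not at h3
      rw [a1 s h3.le hs1.le, a2 (s + 1/2) (by linarith) (by linarith), le_abs]
      right; linarith
  push Not at h2
  rw [a1 s (by linarith) hs1.le]
  by_cases h3 : s ≤ 13 / 16
  · right
    by_cases h4 : s ≤ 3 / 4
    · rw [a1 (s + 1/4) (by linarith) (by linarith), le_abs]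
      right; linarith
    · push Not at h4
      rw [a2 (s + 1/4) (by linarith) (by linarith), le_abs]
      right; linarith
  · push Not at h3
    left
    rw [a2 (s + 1/2) (by linarith) (by linarith), le_abs]
    left; linarith

section construction

variable {δ : ℝ} {w φ : ℝ → ℝ}

/-- choice of one scale -/
lemma choose_scale (hδ : 0 < δ)
    (hwl : Tendsto w (𝓝[≠] 0) (𝓝 0))
    (hφ0 : ∀ h, 0 < |h| → |h| < δ → 0 < φ h)
    (h1 : Tendsto (fun h => w h / |h|) (𝓝[≠] 0) atTop)
    (h2 : Tendsto (fun h => w h / φ h) (𝓝[≠] 0) atTop) (a L M : ℝ) (ha : 0 < a) :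
    ∃ h : ℝ, 0 < h ∧ h < δ ∧ h < a ∧ w h ≤ a ∧ L * h ≤ w h ∧ M * φ h ≤ w h ∧
      ∀ t, 0 < t → t ≤ h → w h * t ≤ 2 * (w t * h) := by
  -- a neighbourhood where everything holds
  have e1 : ∀ᶠ h in 𝓝[≠] (0:ℝ), w h ≤ a := by
    filter_upwards [hwl.eventually (gt_mem_nhds ha)] with h hh using le_of_lt hh
  have e2 : ∀ᶠ h in 𝓝[≠] (0:ℝ), max L 1 ≤ w h / |h| := h1.eventually_ge_atTop _
  have e3 : ∀ᶠ h in 𝓝[≠] (0:ℝ), M ≤ w h / φ h := h2.eventually_ge_atTop M
  have e4 := e1.and (e2.and e3)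
  rw [eventually_nhdsWithin_iff, Metric.eventually_nhds_iff] at e4
  obtain ⟨ε, hε, hball⟩ := e4
  set s := min (min (ε / 2) (δ / 2)) (a / 2) with hs
  have hs0 : 0 < s := by positivity
  have hsε : s < ε := lt_of_le_of_lt ((min_le_left _ _).trans (min_le_left _ _)) (by linarith)
  have hsδ : s < δ := lt_of_le_of_lt ((min_le_left _ _).trans (min_le_right _ _)) (by linarith)
  have hsa : s < a := lt_of_le_of_lt (min_le_right _ _) (by linarith)
  have hprop : ∀ t, 0 < t → t ≤ s → w t ≤ a ∧ max L 1 ≤ w t / t ∧ M ≤ w t / φ t := by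
    intro t h0 h1
    have := hball (y := t) (by rw [Real.dist_eq, sub_zero, abs_of_pos h0]; linarith) h0.ne'
    rwa [abs_of_pos h0] at this
  -- infimum of w t / t over (0, s]
  set Q : Set ℝ := (fun t => w t / t) '' Set.Ioc 0 s with hQ
  have hQne : Q.Nonempty := ⟨_, s, ⟨hs0, le_rfl⟩, rfl⟩
  have hQ1 : ∀ q ∈ Q, 1 ≤ q := by
    rintro _ ⟨t, ht, rfl⟩
    exact (le_max_right _ _).trans (hprop t ht.1 ht.2).2.1
  have hQbdd : BddBelow Q := ⟨1, hQ1⟩
  have hm : 1 ≤ sInf Q := le_csInf hQne hQ1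
  obtain ⟨_, ⟨h, hh, rfl⟩, hlt⟩ := exists_lt_of_csInf_lt hQne (show sInf Q < 2 * sInf Q by linarith)
  obtain ⟨p1, p2, p3⟩ := hprop h hh.1 hh.2
  have hhδ : h < δ := lt_of_le_of_lt hh.2 hsδ
  refine ⟨h, hh.1, hhδ, lt_of_le_of_lt hh.2 hsa, p1, ?_, ?_, ?_⟩
  · rw [← le_div_iff₀ hh.1]; exact (le_max_left _ _).trans p2
  · rw [← le_div_iff₀ (hφ0 h (abs_pos.mpr hh.1.ne') (by rw [abs_of_pos hh.1]; exact hhδ))]
    exact p3
  · intro t ht0 hth
    have h3 : sInf Q ≤ w t / t := csInf_le hQbdd ⟨t, ⟨ht0, hth.trans hh.2⟩, rfl⟩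
    have h4 : w h / h ≤ 2 * (w t / t) := by
      have : (fun t => w t / t) h = w h / h := rfl
      rw [this] at hlt
      linarith
    rw [div_le_iff₀ hh.1] at h4
    calc w h * t ≤ (2 * (w t / t) * h) * t := mul_le_mul_of_nonneg_right h4 ht0.le
      _ = 2 * (w t * h) := by field_simp

/-- the sequence of scales -/
lemma exists_scales (hδ : 0 < δ) (hw0 : ∀ h, 0 < |h| → |h| < δ → 0 < w h)
    (hwl : Tendsto w (𝓝[≠] 0) (𝓝 0))
    (hφ0 : ∀ h, 0 < |h| → |h| < δ → 0 < φ h)
    (h1 : Tendsto (fun h => w h / |h|) (𝓝[≠] 0) atTop)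
    (h2 : Tendsto (fun h => w h / φ h) (𝓝[≠] 0) atTop) :
    ∃ (η A : ℕ → ℝ), (∀ j, 0 < η j ∧ η j < δ ∧ η j < 1 / ((j:ℝ) + 1)) ∧
      (∀ j, A j = (1/2) ^ (j + 3) * w (η j)) ∧ (∀ j, A (j + 1) ≤ A j / 64) ∧
      (∀ j, (∑ i ∈ Finset.range j, A i / η i) * η j ≤ A j / 32) ∧
      (∀ j, 4 ^ j * φ (η j) ≤ w (η j)) ∧
      (∀ j t, 0 < t → t ≤ η j → w (η j) * t ≤ 2 * (w t * η j)) := by
  choose c hc using fun (a : ℝ) (L M : ℝ) (ha : 0 < a) =>
    choose_scale hδ hwl hφ0 h1 h2 a L M ha
  -- state : (η, A, sum)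
  let next : ℕ → ℝ × ℝ × ℝ → ℝ × ℝ × ℝ := fun j p =>
    let a := min (1 / ((j:ℝ) + 2)) (p.2.1 / 64)
    if ha : 0 < a then
      let η := c a (32 * 2 ^ (j + 4) * p.2.2) (4 ^ (j + 1)) ha
      let A := (1/2) ^ (j + 4) * w η
      (η, A, p.2.2 + A / η)
    else p
  let h00 := c 1 0 1 one_pos
  let A00 := (1/2) ^ 3 * w h00
  let st : ℕ → ℝ × ℝ × ℝ := fun n => Nat.rec (h00, A00, A00 / h00) next n
  have st0 : st 0 = (h00, A00, A00 / h00) := rfl
  have stS : ∀ n, st (n + 1) = next n (st n) := fun n => rfl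
  have hpos : ∀ n, 0 < (st n).1 ∧ (st n).1 < δ ∧ 0 < (st n).2.1 := by
    intro n
    induction n with
    | zero =>
      rw [st0]
      have := hc 1 0 1 one_pos
      refine ⟨this.1, this.2.1, ?_⟩
      have hw := hw0 h00 (abs_pos.mpr this.1.ne') (by rw [abs_of_pos this.1]; exact this.2.1)
      change 0 < (1/2 : ℝ) ^ 3 * w h00
      positivity
    | succ n ih =>
      have ha : 0 < min (1 / ((n:ℝ) + 2)) ((st n).2.1 / 64) := by
        have := ih.2.2
        positivity
      have hcc := hc _ (32 * 2 ^ (n + 4) * (st n).2.2) (4 ^ (n + 1)) ha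
      rw [stS]
      simp only [next, ha, dif_pos]
      refine ⟨hcc.1, hcc.2.1, ?_⟩
      have hw := hw0 _ (abs_pos.mpr hcc.1.ne') (by rw [abs_of_pos hcc.1]; exact hcc.2.1)
      positivity
  have hstep : ∀ n : ℕ, 0 < min (1 / ((n:ℝ) + 2)) ((st n).2.1 / 64) := by
    intro n
    have := (hpos n).2.2
    positivity
  have hS : ∀ n, ∃ η, st (n + 1) = (η, (1/2) ^ (n + 4) * w η,
      (st n).2.2 + ((1/2) ^ (n + 4) * w η) / η) ∧
      (0 < η ∧ η < δ ∧ η < min (1 / ((n:ℝ) + 2)) ((st n).2.1 / 64) ∧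
        w η ≤ min (1 / ((n:ℝ) + 2)) ((st n).2.1 / 64) ∧
        32 * 2 ^ (n + 4) * (st n).2.2 * η ≤ w η ∧ 4 ^ (n + 1) * φ η ≤ w η ∧
      ∀ t, 0 < t → t ≤ η → w η * t ≤ 2 * (w t * η)) := by
    intro n
    refine ⟨c _ (32 * 2 ^ (n + 4) * (st n).2.2) (4 ^ (n + 1)) (hstep n), ?_,
      hc _ (32 * 2 ^ (n + 4) * (st n).2.2) (4 ^ (n + 1)) (hstep n)⟩
    rw [stS]
    simp only [next, hstep n, dif_pos]
  have h0c := hc 1 0 1 one_pos
  have hA : ∀ n, (st n).2.1 = (1/2) ^ (n + 3) * w (st n).1 := by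
    intro n
    cases n with
    | zero => rw [st0]
    | succ n =>
      obtain ⟨η, hη, -⟩ := hS n
      rw [hη]
  have hsum : ∀ n, (st n).2.2 = ∑ i ∈ Finset.range (n + 1), (st i).2.1 / (st i).1 := by
    intro n
    induction n with
    | zero => rw [Finset.sum_range_one, st0]
    | succ n ih =>
      rw [Finset.sum_range_succ, ← ih]
      obtain ⟨η, hη, -⟩ := hS n
      rw [hη]
  refine ⟨fun n => (st n).1, fun n => (st n).2.1, ?_, hA, ?_, ?_, ?_, ?_⟩
  · intro j
    refine ⟨(hpos j).1, (hpos j).2.1, ?_⟩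
    cases j with
    | zero => simp only [st0]; simpa using h0c.2.2.1
    | succ n =>
      obtain ⟨η, hη, -, -, h3, -⟩ := hS n
      simp only [hη]
      refine lt_of_lt_of_le h3 ((min_le_left _ _).trans (le_of_eq ?_))
      push_cast; ring
  · intro j
    obtain ⟨η, hη, h3, h4, -, h5, -⟩ := hS j
    simp only [hη]
    have h6 : w η ≤ (st j).2.1 / 64 := h5.trans (min_le_right _ _)
    have h7 : 0 < w η := hw0 η (abs_pos.mpr h3.ne') (by rw [abs_of_pos h3]; exact h4)
    have h8 : ((1:ℝ)/2) ^ (j + 4) ≤ 1 := pow_le_one₀ (by norm_num) (by norm_num)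
    nlinarith
  · intro j
    cases j with
    | zero =>
      simp only [Finset.range_zero, Finset.sum_empty, zero_mul]
      have := (hpos 0).2.2
      positivity
    | succ n =>
      obtain ⟨η, hη, -, -, -, -, h5, -⟩ := hS n
      simp only
      rw [← hsum n, hη]
      simp only
      have h6 : (0:ℝ) < 2 ^ (n + 4) := by positivity
      have h7 : ((1:ℝ)/2) ^ (n + 4) * 2 ^ (n + 4) = 1 := by
        rw [← mul_pow]; norm_num
      have h8 := mul_le_mul_of_nonneg_left h5 (show (0:ℝ) ≤ (1/2) ^ (n + 4) / 32 by positivity)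
      have h9 : ((1:ℝ)/2) ^ (n + 4) / 32 * (32 * 2 ^ (n + 4) * (st n).2.2 * η) =
          (st n).2.2 * η := by
        linear_combination ((st n).2.2 * η) * h7
      rw [h9] at h8
      linarith
  · intro j
    cases j with
    | zero =>
      have := h0c.2.2.2.2.2.1
      simp only [st0]
      simpa using this
    | succ n =>
      obtain ⟨η, hη, -, -, -, -, -, h6, -⟩ := hS n
      simp only [hη]
      exact h6
  · intro j
    cases j with
    | zero =>
      simp only [st0]
      exact h0c.2.2.2.2.2.2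
    | succ n =>
      obtain ⟨η, hη, -, -, -, -, -, -, h7⟩ := hS n
      simp only [hη]
      exact h7

end construction

/-- **Ruziewicz's question has a positive answer.** Let `w, φ` be defined for `0 < |h| < δ`,
positive, depending only on `|h|`, nondecreasing in `|h|` and tending to `0` as `h → 0`, with
`w h / |h| → ∞` and `w h / φ h → ∞` as `h → 0`. Then there is `f : ℝ → ℝ` with
`|f (x + h) - f x| < w h` for all `x` and all `0 < |h| < δ`, and with
`limsup |f (x + h) - f x| / φ h = ∞` as `h → 0` for every `x` (upper limit in the extended reals).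
Monotonicity `|h| ≤ |k| → w h ≤ w k` includes that `w h` depends only on `|h|`. -/
theorem result (δ : ℝ) (hδ : 0 < δ) (w φ : ℝ → ℝ)
    (hw0 : ∀ h, 0 < |h| → |h| < δ → 0 < w h)
    (hwm : ∀ h k, 0 < |h| → |h| ≤ |k| → |k| < δ → w h ≤ w k)
    (hwl : Tendsto w (𝓝[≠] 0) (𝓝 0))
    (hφ0 : ∀ h, 0 < |h| → |h| < δ → 0 < φ h)
    (hφm : ∀ h k, 0 < |h| → |h| ≤ |k| → |k| < δ → φ h ≤ φ k)
    (_hφl : Tendsto φ (𝓝[≠] 0) (𝓝 0))
    (h1 : Tendsto (fun h => w h / |h|) (𝓝[≠] 0) atTop)
    (h2 : Tendsto (fun h => w h / φ h) (𝓝[≠] 0) atTop) :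
    ∃ f : ℝ → ℝ, (∀ x h, 0 < |h| → |h| < δ → |f (x + h) - f x| < w h) ∧
      ∀ x, limsup (fun h => ((|(f (x + h) - f x) / φ h| : ℝ) : EReal)) (𝓝[≠] 0) = ⊤ := by
  obtain ⟨η, A, hη, hA, hA1, hA2, hA3, hA4⟩ := exists_scales hδ hw0 hwl hφ0 h1 h2
  have hηabs : ∀ j, |η j| = η j := fun j => abs_of_pos (hη j).1
  have hwη : ∀ j, 0 < w (η j) := fun j => hw0 _ (by rw [hηabs]; exact (hη j).1)
    (by rw [hηabs]; exact (hη j).2.1)
  have hApos : ∀ j, 0 < A j := by
    intro j
    rw [hA j]
    have := hwη j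
    positivity
  -- geometric decay
  have hgeo : ∀ j k, A (j + k) ≤ A j * (1 / 64) ^ k := by
    intro j k
    induction k with
    | zero => simp
    | succ k ih =>
      have := hA1 (j + k)
      rw [← add_assoc, pow_succ]
      linarith
  have hAsum : Summable A := by
    have h3 : Summable fun k : ℕ => A 0 * (1 / 64 : ℝ) ^ k :=
      (summable_geometric_of_lt_one (by norm_num) (by norm_num)).mul_left _
    refine Summable.of_nonneg_of_le (fun k => (hApos k).le) (fun k => ?_) h3
    have := hgeo 0 k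
    rwa [zero_add] at this
  set f : ℝ → ℝ := fun x => ∑' j, A j * S (x / η j) with hf
  have hsum : ∀ x, Summable fun j => A j * S (x / η j) := by
    intro x
    refine Summable.of_nonneg_of_le (fun j => mul_nonneg (hApos j).le (S_nonneg _)) (fun j => ?_) hAsum
    have h3 := S_le_half (x / η j)
    have h4 := hApos j
    nlinarith
  have hdiff : ∀ x h, f (x + h) - f x = ∑' j, A j * (S ((x + h) / η j) - S (x / η j)) := by
    intro x h
    rw [hf]
    simp only
    rw [← (hsum (x + h)).tsum_sub (hsum x)]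
    refine tsum_congr fun j => by ring
  have hdsum : ∀ x h, Summable fun j => A j * (S ((x + h) / η j) - S (x / η j)) := by
    intro x h
    have := (hsum (x + h)).sub (hsum x)
    refine this.congr fun j => by ring
  have hterm : ∀ x h j, |A j * (S ((x + h) / η j) - S (x / η j))| ≤ A j := by
    intro x h j
    rw [abs_mul, abs_of_pos (hApos j)]
    have h3 := abs_S_sub_le_one ((x + h) / η j) (x / η j)
    have h4 := hApos j
    nlinarith
  have hterm2 : ∀ x h j, |A j * (S ((x + h) / η j) - S (x / η j))| ≤ A j / η j * |h| := by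
    intro x h j
    rw [abs_mul, abs_of_pos (hApos j)]
    have h3 := abs_S_sub_le ((x + h) / η j) (x / η j)
    have h4 : (x + h) / η j - x / η j = h / η j := by ring
    rw [h4, abs_div, hηabs] at h3
    calc A j * |S ((x + h) / η j) - S (x / η j)| ≤ A j * (|h| / η j) :=
          mul_le_mul_of_nonneg_left h3 (hApos j).le
      _ = _ := by ring
  refine ⟨f, ?_, ?_⟩
  · intro x h hh0 hhδ
    have hwh : 0 < w h := hw0 h hh0 hhδ
    have hb : ∀ j, ‖A j * (S ((x + h) / η j) - S (x / η j))‖ ≤ (w h / 4) * (1 / 2) ^ j := by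
      intro j
      rw [Real.norm_eq_abs]
      have e : (w h / 4) * (1 / 2 : ℝ) ^ j = (1/2) ^ (j + 3) * (2 * w h) := by
        rw [pow_add]; ring
      rw [e]
      have hp : (0:ℝ) < (1/2) ^ (j + 3) := by positivity
      rcases le_total |h| (η j) with hle | hle
      · refine (hterm2 x h j).trans ?_
        have h3 := hA4 j |h| hh0 hle
        have h4 : w |h| = w h := by
          apply le_antisymm
          · exact hwm _ _ (by rw [abs_abs]; exact hh0) (by rw [abs_abs]) hhδ
          · exact hwm _ _ hh0 (by rw [abs_abs]) (by rw [abs_abs]; exact hhδ)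
        rw [h4] at h3
        have h5 : w (η j) * |h| / η j ≤ 2 * w h := by
          rw [div_le_iff₀ (hη j).1]; linarith
        calc A j / η j * |h| = (1/2) ^ (j + 3) * (w (η j) * |h| / η j) := by rw [hA j]; ring
          _ ≤ _ := mul_le_mul_of_nonneg_left h5 hp.le
      · refine (hterm x h j).trans ?_
        have h3 : w (η j) ≤ w h := hwm _ _ (by rw [hηabs]; exact (hη j).1) (by rw [hηabs]; exact hle) hhδ
        rw [hA j]
        apply mul_le_mul_of_nonneg_left _ hp.le
        linarith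
    have hgs : HasSum (fun j : ℕ => (w h / 4) * (1 / 2 : ℝ) ^ j) ((w h / 4) * 2) :=
      hasSum_geometric_two.mul_left _
    have h3 := tsum_of_norm_bounded hgs hb
    rw [← hdiff x h, Real.norm_eq_abs] at h3
    linarith
  · intro x
    have key : ∀ j, ∃ h, 0 < h ∧ h ≤ η j ∧ A j / 16 ≤ |f (x + h) - f x| := by
      intro j
      have hmain : ∀ h, 0 < h → h ≤ η j → 1 / 8 ≤ |S ((x + h) / η j) - S (x / η j)| →
          A j / 16 ≤ |f (x + h) - f x| := by
        intro h hh0 hhη h8
        rw [hdiff x h, ← (hdsum x h).sum_add_tsum_nat_add (j + 1), Finset.sum_range_succ]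
        set D := fun i => A i * (S ((x + h) / η i) - S (x / η i)) with hD
        have e1 : A j / 8 ≤ |D j| := by
          rw [hD]
          simp only
          rw [abs_mul, abs_of_pos (hApos j)]
          have := hApos j
          nlinarith
        have e2 : |∑ i ∈ Finset.range j, D i| ≤ A j / 32 := by
          refine (Finset.abs_sum_le_sum_abs _ _).trans ?_
          refine (Finset.sum_le_sum fun i _ => hterm2 x h i).trans ?_
          rw [← Finset.sum_mul, abs_of_pos hh0]
          refine le_trans ?_ (hA2 j)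
          apply mul_le_mul_of_nonneg_left hhη
          exact Finset.sum_nonneg fun i _ => div_nonneg (hApos i).le (hη i).1.le
        have e3 : |∑' i, D (i + (j + 1))| ≤ A j / 63 := by
          have hgs : HasSum (fun k : ℕ => (A j / 64) * (1 / 64 : ℝ) ^ k) ((A j / 64) * (1 - 1/64)⁻¹) :=
            (hasSum_geometric_of_lt_one (by norm_num) (by norm_num)).mul_left _
          have h3 := tsum_of_norm_bounded (f := fun i => D (i + (j + 1))) hgs (fun k => by
            rw [Real.norm_eq_abs]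
            refine (hterm x h _).trans ?_
            have h4 := hgeo j (k + 1)
            have h5 : k + (j + 1) = j + (k + 1) := by ring
            rw [h5]
            refine h4.trans (le_of_eq ?_)
            rw [pow_succ]; ring)
          rw [Real.norm_eq_abs] at h3
          refine h3.trans (le_of_eq ?_)
          norm_num; ring
        have h6 : |D j| ≤ |∑ i ∈ Finset.range j, D i + D j + ∑' i, D (i + (j + 1))| +
            |∑ i ∈ Finset.range j, D i| + |∑' i, D (i + (j + 1))| := by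
          have h7 : D j = (∑ i ∈ Finset.range j, D i + D j + ∑' i, D (i + (j + 1))) +
            (-∑ i ∈ Finset.range j, D i) + (-∑' i, D (i + (j + 1))) := by ring
          calc |D j| = |(∑ i ∈ Finset.range j, D i + D j + ∑' i, D (i + (j + 1))) +
            (-∑ i ∈ Finset.range j, D i) + (-∑' i, D (i + (j + 1)))| := by rw [← h7]
            _ ≤ _ := by
              refine (abs_add_le _ _).trans ?_
              rw [abs_neg]
              have := abs_add_le (∑ i ∈ Finset.range j, D i + D j + ∑' i, D (i + (j + 1)))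
                (-∑ i ∈ Finset.range j, D i)
              rw [abs_neg] at this
              linarith
        have := hApos j
        linarith
      have hη0 := (hη j).1
      rcases S_shift (x / η j) with hs | hs
      · refine ⟨η j / 2, by positivity, by linarith, hmain _ (by positivity) (by linarith) ?_⟩
        have : (x + η j / 2) / η j = x / η j + 1 / 2 := by field_simp
        rw [this]; exact hs
      · refine ⟨η j / 4, by positivity, by linarith, hmain _ (by positivity) (by linarith) ?_⟩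
        have : (x + η j / 4) / η j = x / η j + 1 / 4 := by field_simp
        rw [this]; exact hs
    choose h hh0 hhη hhA using key
    have hlim : Tendsto h atTop (𝓝[≠] 0) := by
      rw [tendsto_nhdsWithin_iff]
      refine ⟨?_, Eventually.of_forall fun j => (hh0 j).ne'⟩
      refine squeeze_zero (fun j => (hh0 j).le) (fun j => ((hhη j).trans (hη j).2.2.le))
        tendsto_one_div_add_atTop_nhds_zero_nat
    have hlow : ∀ j, (2:ℝ) ^ j / 128 ≤ |(f (x + h j) - f x) / φ (h j)| := by
      intro j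
      have p1 : 0 < φ (h j) := hφ0 _ (by rw [abs_of_pos (hh0 j)]; exact hh0 j)
        (by rw [abs_of_pos (hh0 j)]; exact lt_of_le_of_lt (hhη j) (hη j).2.1)
      have p2 : φ (h j) ≤ φ (η j) := hφm _ _ (by rw [abs_of_pos (hh0 j)]; exact hh0 j)
        (by rw [abs_of_pos (hh0 j), hηabs]; exact hhη j) (by rw [hηabs]; exact (hη j).2.1)
      rw [abs_div, abs_of_pos p1, le_div_iff₀ p1]
      refine le_trans ?_ (hhA j)
      rw [hA j]
      have h3 := hA3 j
      have h4 : (2:ℝ) ^ j / 128 * φ (h j) ≤ (2:ℝ) ^ j / 128 * φ (η j) :=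
        mul_le_mul_of_nonneg_left p2 (by positivity)
      refine h4.trans ?_
      have h5 : (2:ℝ) ^ j / 128 * φ (η j) = (1/2) ^ (j + 3) / 16 * (4 ^ j * φ (η j)) := by
        have h6 : ((1:ℝ)/2) ^ j * 4 ^ j = 2 ^ j := by rw [← mul_pow]; norm_num
        rw [pow_add]
        linear_combination (-(φ (η j)) / 128) * h6
      rw [h5]
      have h6 := mul_le_mul_of_nonneg_left h3 (show (0:ℝ) ≤ (1/2) ^ (j + 3) / 16 by positivity)
      linarith
    rw [EReal.eq_top_iff_forall_lt]
    intro y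
    have hev : ∀ᶠ j in atTop, y + 1 ≤ (2:ℝ) ^ j / 128 := by
      have : Tendsto (fun j : ℕ => (2:ℝ) ^ j / 128) atTop atTop :=
        (tendsto_pow_atTop_atTop_of_one_lt (by norm_num)).atTop_div_const (by norm_num)
      exact this.eventually_ge_atTop _
    have hfreq : ∃ᶠ t in 𝓝[≠] (0:ℝ), ((y + 1 : ℝ) : EReal) ≤
        ((|(f (x + t) - f x) / φ t| : ℝ) : EReal) := by
      refine hlim.frequently (Eventually.frequently ?_)
      filter_upwards [hev] with j hj
      exact EReal.coe_le_coe_iff.mpr (hj.trans (hlow j))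
    have h3 := le_limsup_of_frequently_le hfreq
    refine lt_of_lt_of_le ?_ h3
    exact EReal.coe_lt_coe_iff.mpr (by linarith)

end

end Pool.Agent.Results.MP_a2bddf_an.Ruziewicz
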